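import Mathlib
import Pool.Agent.H96.BR.Main

/-!
# Exact first order asymptotics of the waiting time for bridge patterns

For every real `λ`: `E T(BR^{λ,n}) / n → 1 + E F_λ < ∞`, where
`F_λ = inf {t > 0 : B_{t+1} - B_t = λ}` for a standard Brownian motion `B`.

Proof: a uniform geometric tail for the discrete hitting time (independent blocks of length `2n`
and the parity/intermediate value property of the window process), weak convergence of the block
increments (characteristic functions), Doob's maximal inequality for the oscillation between grid
points, and an anti-concentration estimate for the maximum of the Slepian process over blocks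
(every window contains a fixed independent Gaussian increment of variance 1/2), which rules out
touching the level without crossing it.
-/

open MeasureTheory ProbabilityTheory Filter
open scoped ENNReal NNReal Topology
open Pool.Agent.H96.BR

namespace Pool.Agent.Results.MP_ceed31_pr.BridgeLimit

/-- For all real `l`, `E F_l < ∞` and `E T(BR^{l,n}) / n → 1 + E F_l`. -/
theorem result {Ω Ω' : Type*} [MeasurableSpace Ω] [MeasurableSpace Ω'] {P : Measure Ω}
    {P' : Measure Ω'} {ξ : ℕ → Ω → ℤ} (hξ : IsSigns ξ P) {B : ℝ≥0 → Ω' → ℝ}
    (hB : IsBrownianReal B P') (l : ℝ) :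
    ∫⁻ ω, hitTime B l ω ∂P' < ∞ ∧
      Tendsto (fun n : ℕ => (∫⁻ ω, waitTime ξ l n ω ∂P) / n) atTop
        (𝓝 (1 + ∫⁻ ω, hitTime B l ω ∂P')) :=
  main hξ hB l

end Pool.Agent.Results.MP_ceed31_pr.BridgeLimit
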